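import Mathlib
import Pool.Agent.R337.SailFinal

/-!
# MP_7af359_nt, Q1: conditions 1, 2, 3, 5 imply condition 7

Klein sails, verification of fundamental domains.  All vertices of a candidate `D` whose
translates by the group form a closed polyhedral surface with well placed edges lie in a single
invariant cone.  Conditions 4 and 6 of the problem are not needed.
-/

namespace Pool.Agent.Results.MP_7af359_nt.ConeConditionRedundant

open Set Module

/-- The real point of an integer vector. -/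
def toReal (v : Fin 3 → ℤ) : Fin 3 → ℝ := fun i => (v i : ℝ)

/-- The linear action of an integer matrix on `ℝ³`. -/
noncomputable def act (M : Matrix (Fin 3) (Fin 3) ℤ) (x : Fin 3 → ℝ) : Fin 3 → ℝ :=
  (M.map (Int.castRingHom ℝ)).mulVec x

/-- `Ξ₊(A)`: the matrices in `GL(3, ℤ)` which commute with `A` and whose eigenvalues are
positive (all eigenvalues of a matrix commuting with `A` are real). -/
def XiPlus (A : Matrix (Fin 3) (Fin 3) ℤ) : Set (GL (Fin 3) ℤ) :=
  {g | (g : Matrix (Fin 3) (Fin 3) ℤ) * A = A * g ∧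
    ∀ (μ : ℝ) (x : Fin 3 → ℝ), x ≠ 0 → act (g : Matrix (Fin 3) (Fin 3) ℤ) x = μ • x → 0 < μ}

/-- `B₁, B₂` is a basis of `Ξ₊(A)`. -/
structure IsBasisOfXiPlus (A : Matrix (Fin 3) (Fin 3) ℤ) (B₁ B₂ : GL (Fin 3) ℤ) : Prop where
  mem : ∀ n m : ℤ, B₁ ^ n * B₂ ^ m ∈ XiPlus A
  repr : ∀ g ∈ XiPlus A, ∃! nm : ℤ × ℤ, g = B₁ ^ nm.1 * B₂ ^ nm.2

/-- An invariant cone of `A`: the open simplicial cone spanned by a basis of eigenvectors. -/
def IsInvariantCone (A : Matrix (Fin 3) (Fin 3) ℤ) (C : Set (Fin 3 → ℝ)) : Prop :=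
  ∃ e : Basis (Fin 3) ℝ (Fin 3 → ℝ), (∀ j, ∃ α : ℝ, act A (e j) = α • e j) ∧
    C = {x | ∀ j, 0 < e.repr x j}

/-- A finite list of faces: points, segments (given by their endpoints) and polygons (given by
their vertices), with all vertices in `ℤ³`. -/
structure FaceList where
  verts : Finset (Fin 3 → ℤ)
  edges : Finset ((Fin 3 → ℤ) × (Fin 3 → ℤ))
  polys : Finset (Finset (Fin 3 → ℤ))

/-- The point face. -/
def vertCell (v : Fin 3 → ℤ) : Set (Fin 3 → ℝ) := {toReal v}

/-- The open segment face. -/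
def edgeCell (e : (Fin 3 → ℤ) × (Fin 3 → ℤ)) : Set (Fin 3 → ℝ) :=
  openSegment ℝ (toReal e.1) (toReal e.2)

/-- The open polygon face: the relative interior of the convex hull of the vertices. -/
def polyCell (S : Finset (Fin 3 → ℤ)) : Set (Fin 3 → ℝ) :=
  intrinsicInterior ℝ (convexHull ℝ (toReal '' (S : Set (Fin 3 → ℤ))))

/-- All faces of `D`. -/
def FaceList.faces (D : FaceList) : Set (Set (Fin 3 → ℝ)) :=
  (vertCell '' (D.verts : Set (Fin 3 → ℤ))) ∪ (edgeCell '' (D.edges : Set _)) ∪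
    (polyCell '' (D.polys : Set _))

/-- The point set of `D`. -/
def FaceList.carrier (D : FaceList) : Set (Fin 3 → ℝ) := ⋃₀ D.faces

/-- Candidates: the segments are nondegenerate, the polygons are two-dimensional and the
relatively open faces are pairwise disjoint. -/
structure IsCandidate (D : FaceList) : Prop where
  edge_ne : ∀ e ∈ D.edges, e.1 ≠ e.2
  poly_dim : ∀ S ∈ D.polys, finrank ℝ (vectorSpan ℝ (toReal '' (S : Set (Fin 3 → ℤ)))) = 2
  disjoint : D.faces.PairwiseDisjoint id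

/-- The polygons of `U`: the translates `B₁ⁿ B₂ᵐ F`, `F` a polygon of `D`. -/
def polysU (B₁ B₂ : GL (Fin 3) ℤ) (D : FaceList) : Set (Set (Fin 3 → ℝ)) :=
  {P | ∃ n m : ℤ, ∃ S ∈ D.polys,
    P = act ((B₁ ^ n * B₂ ^ m : GL (Fin 3) ℤ) : Matrix (Fin 3) (Fin 3) ℤ) '' polyCell S}

/-- The edges of `U`, given by their pairs of endpoints. -/
def edgesU (B₁ B₂ : GL (Fin 3) ℤ) (D : FaceList) : Set ((Fin 3 → ℝ) × (Fin 3 → ℝ)) :=
  {ab | ∃ n m : ℤ, ∃ e ∈ D.edges,
    ab = (act ((B₁ ^ n * B₂ ^ m : GL (Fin 3) ℤ) : Matrix (Fin 3) (Fin 3) ℤ) (toReal e.1),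
      act ((B₁ ^ n * B₂ ^ m : GL (Fin 3) ℤ) : Matrix (Fin 3) (Fin 3) ℤ) (toReal e.2))}

/-- The vertices of `U`. -/
def vertsU (B₁ B₂ : GL (Fin 3) ℤ) (D : FaceList) : Set (Fin 3 → ℝ) :=
  {x | ∃ n m : ℤ, ∃ v ∈ D.verts,
    x = act ((B₁ ^ n * B₂ ^ m : GL (Fin 3) ℤ) : Matrix (Fin 3) (Fin 3) ℤ) (toReal v)}

/-- The dihedral angle opposite to the one formed at the edge line through `a` and `b` by the
polygons `P` and `P'`. -/
def oppositeDihedral (a b : Fin 3 → ℝ) (P P' : Set (Fin 3 → ℝ)) : Set (Fin 3 → ℝ) :=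
  {x | ∃ p ∈ P, ∃ p' ∈ P', ∃ s t u : ℝ, 0 ≤ s ∧ 0 ≤ t ∧
    x = a + u • (b - a) - s • (p - a) - t • (p' - a)}

/-- The dihedral angle at the edge `(a, b)` formed by `P` and `P'` is well placed: the origin lies
in the opposite dihedral angle.  We also allow the limit case in which `P` and `P'` lie in one
plane, on different sides of the line through `a` and `b`. -/
def WellPlaced (a b : Fin 3 → ℝ) (P P' : Set (Fin 3 → ℝ)) : Prop :=
  0 ∈ oppositeDihedral a b P P' ∨
    ∃ p ∈ P, ∃ p' ∈ P', ∃ x ∈ openSegment ℝ p p', ∃ u : ℝ, x = a + u • (b - a)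

/-- Condition 1: the closure of `D` is homeomorphic to a closed disk. -/
def Condition1 (D : FaceList) : Prop :=
  Nonempty (closure D.carrier ≃ₜ Metric.closedBall (0 : EuclideanSpace ℝ (Fin 2)) 1)

/-- What is used of conditions 2 and 5.  `U` is a closed polyhedral surface with well placed
dihedral angles: each point of the relative boundary of a polygon `P` of `U` is a vertex of `U`,
or lies on an edge of `U` which is contained in the closure of `P` and in the closure of another
polygon `P'` of `U`, and the dihedral angle formed by `P` and `P'` there is well placed.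
Moreover every edge of `D` is contained in the closure of some polygon of `U`. -/
structure Condition25 (B₁ B₂ : GL (Fin 3) ℤ) (D : FaceList) : Prop where
  boundary : ∀ P ∈ polysU B₁ B₂ D, ∀ x ∈ closure P, x ∉ P →
    x ∈ vertsU B₁ B₂ D ∨
    ∃ ab ∈ edgesU B₁ B₂ D, x ∈ openSegment ℝ ab.1 ab.2 ∧ openSegment ℝ ab.1 ab.2 ⊆ closure P ∧
      ∃ P' ∈ polysU B₁ B₂ D, P' ≠ P ∧ openSegment ℝ ab.1 ab.2 ⊆ closure P' ∧
        WellPlaced ab.1 ab.2 P P'
  edge : ∀ e ∈ D.edges, ∃ P ∈ polysU B₁ B₂ D, edgeCell e ⊆ closure P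

/-- Condition 3: no plane of a polygon passes through the origin. -/
def Condition3 (D : FaceList) : Prop :=
  ∀ S ∈ D.polys, (0 : Fin 3 → ℝ) ∉ affineSpan ℝ (toReal '' (S : Set (Fin 3 → ℤ)))

/-- Condition 7: all vertices of `D` (the point faces, the endpoints of the segments and the
vertices of the polygons) lie in one invariant cone. -/
def Condition7 (A : Matrix (Fin 3) (Fin 3) ℤ) (D : FaceList) : Prop :=
  ∃ C, IsInvariantCone A C ∧ (∀ v ∈ D.verts, toReal v ∈ C) ∧
    (∀ e ∈ D.edges, toReal e.1 ∈ C ∧ toReal e.2 ∈ C) ∧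
    (∀ S ∈ D.polys, ∀ v ∈ S, toReal v ∈ C)

theorem act_eq (M : Matrix (Fin 3) (Fin 3) ℤ) :
    act M = fun x => (Pool.Agent.R337.matR M).mulVec x := rfl

theorem act_toReal (M : Matrix (Fin 3) (Fin 3) ℤ) (v : Fin 3 → ℤ) :
    act M (toReal v) = Pool.Agent.R337.toR (M.mulVec v) := by
  funext i
  simp [act, toReal, Pool.Agent.R337.toR, Matrix.mulVec, dotProduct]

theorem act_injective (g : GL (Fin 3) ℤ) :
    Function.Injective (act (g : Matrix (Fin 3) (Fin 3) ℤ)) := by
  intro x y hxy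
  have hmul1 : Pool.Agent.R337.matR ((g⁻¹ : GL (Fin 3) ℤ) : Matrix (Fin 3) (Fin 3) ℤ) *
      Pool.Agent.R337.matR (g : Matrix (Fin 3) (Fin 3) ℤ) = 1 := by
    have h1 : Pool.Agent.R337.matR ((g⁻¹ : GL (Fin 3) ℤ) : Matrix (Fin 3) (Fin 3) ℤ) *
      Pool.Agent.R337.matR (g : Matrix (Fin 3) (Fin 3) ℤ) =
        Pool.Agent.R337.matR (((g⁻¹ * g : GL (Fin 3) ℤ) : Matrix (Fin 3) (Fin 3) ℤ)) := by
      rw [Units.val_mul]
      exact (Matrix.map_mul (f := Int.castRingHom ℝ)).symm
    rw [h1, inv_mul_cancel]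
    ext i j
    simp [Pool.Agent.R337.matR, Matrix.one_apply]
  have h2 := congrArg (fun z => (Pool.Agent.R337.matR ((g⁻¹ : GL (Fin 3) ℤ) :
    Matrix (Fin 3) (Fin 3) ℤ)).mulVec z) hxy
  simp only [act_eq, Matrix.mulVec_mulVec, hmul1, Matrix.one_mulVec] at h2
  exact h2

/-- The relation between two polygons used in the descent. -/
theorem wellPlaced_relation {P P' : Set (Fin 3 → ℝ)} {φ φ' : (Fin 3 → ℝ) →ₗ[ℝ] ℝ}
    (h : Pool.Agent.R337.PolyData P φ) (h' : Pool.Agent.R337.PolyData P' φ')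
    {a b : Fin 3 → ℝ} (ha : a ∈ closure P) (hb : b ∈ closure P) (ha' : a ∈ closure P')
    (hb' : b ∈ closure P') (hw : WellPlaced a b P P') :
    ∃ c ∈ P, ∃ c' ∈ P', ∃ s t u r : ℝ,
      0 < s ∧ 0 < t ∧ 0 ≤ r ∧ s • c + t • c' = (s + t + r - u) • a + u • b := by
  have ea := h.closure_one ha
  have eb := h.closure_one hb
  have ea' := h'.closure_one ha'
  have eb' := h'.closure_one hb'
  rcases hw with ⟨p, hp, p', hp', s, t, u, hs, ht, h0⟩ | ⟨p, hp, p', hp', x, hx, u, hxu⟩
  · have e1 := congrArg φ h0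
    have e2 := congrArg φ' h0
    simp only [map_zero, map_add, map_sub, map_smul, smul_eq_mul, ea, eb, h.one p hp] at e1
    simp only [map_zero, map_add, map_sub, map_smul, smul_eq_mul, ea', eb', h'.one p' hp'] at e2
    have ht' : 0 < t := by
      rcases ht.lt_or_eq with h1 | h1
      · exact h1
      · rw [← h1] at e1; norm_num at e1
    have hs' : 0 < s := by
      rcases hs.lt_or_eq with h1 | h1
      · exact h1
      · rw [← h1] at e2; norm_num at e2
    refine ⟨p, hp, p', hp', s, t, u, 1, hs', ht', zero_le_one, ?_⟩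
    ext i
    have hi := congrFun h0 i
    simp only [Pi.zero_apply, Pi.add_apply, Pi.sub_apply, Pi.smul_apply, smul_eq_mul] at hi ⊢
    linarith
  · obtain ⟨s, t, hs, ht, hst, hx2⟩ := hx
    refine ⟨p, hp, p', hp', s, t, u, 0, hs, ht, le_refl _, ?_⟩
    rw [hx2, hxu]
    ext i
    simp only [Pi.add_apply, Pi.sub_apply, Pi.smul_apply, smul_eq_mul]
    have : s = 1 - t := by linarith
    rw [this]
    ring

/-- **Main result** (Q1 of the problem, affirmative).  Let `A ∈ SL(3, ℤ)` have irreducible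
characteristic polynomial and three real eigenvalues, let `B₁, B₂` be a basis of `Ξ₊(A)` and let
`D` be a candidate.  Then conditions 1, 2, 3 and 5 imply condition 7. -/
theorem result (A : Matrix (Fin 3) (Fin 3) ℤ) (_hdet : A.det = 1)
    (hirr : Irreducible (A.map (Int.castRingHom ℚ)).charpoly)
    (hreal : (A.map (Int.castRingHom ℝ)).charpoly.Splits)
    (B₁ B₂ : GL (Fin 3) ℤ) (hB : IsBasisOfXiPlus A B₁ B₂)
    (D : FaceList) (hD : IsCandidate D)
    (h1 : Condition1 D) (h25 : Condition25 B₁ B₂ D) (h3 : Condition3 D) :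
    Condition7 A D := by
  classical
  obtain ⟨e, α, hα, he⟩ := Pool.Agent.R337.exists_eigenbasis (A := A) hirr hreal
  set Γ : Set (GL (Fin 3) ℤ) := {g | ∃ n m : ℤ, g = B₁ ^ n * B₂ ^ m} with hΓdef
  have hone : (1 : GL (Fin 3) ℤ) ∈ Γ := ⟨0, 0, by simp⟩
  have hΓ : ∀ g ∈ Γ, ∃ μ : Fin 3 → ℝ, (∀ j, 0 < μ j) ∧ (∏ j, μ j = 1) ∧
      ∀ j, (Pool.Agent.R337.matR (g : Matrix (Fin 3) (Fin 3) ℤ)).mulVec (e j) = μ j • e j := by
    rintro g ⟨n, m, rfl⟩
    obtain ⟨hc, hp⟩ := hB.mem n m
    exact Pool.Agent.R337.xi_diag hc hp e α hα he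
  have hQ : ∀ P, P ∈ polysU B₁ B₂ D ↔ ∃ g ∈ Γ, ∃ S ∈ D.polys,
      P = (fun x => (Pool.Agent.R337.matR (g : Matrix (Fin 3) (Fin 3) ℤ)).mulVec x) ''
        intrinsicInterior ℝ (convexHull ℝ (Pool.Agent.R337.toR '' (S : Set (Fin 3 → ℤ)))) := by
    intro P
    constructor
    · rintro ⟨n, m, S, hS, rfl⟩
      exact ⟨_, ⟨n, m, rfl⟩, S, hS, rfl⟩
    · rintro ⟨g, ⟨n, m, rfl⟩, S, hS, rfl⟩
      exact ⟨n, m, S, hS, rfl⟩
  -- polygon data
  have hcl : ∀ {a b : Fin 3 → ℝ} {P : Set (Fin 3 → ℝ)}, openSegment ℝ a b ⊆ closure P →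
      a ∈ closure P ∧ b ∈ closure P := by
    intro a b P h
    have h2 : segment ℝ a b ⊆ closure P := by
      rw [← closure_openSegment]
      exact closure_minimal h isClosed_closure
    exact ⟨h2 (left_mem_segment ℝ a b), h2 (right_mem_segment ℝ a b)⟩
  have hdata : ∀ P ∈ polysU B₁ B₂ D, ∃ φ, Pool.Agent.R337.PolyData P φ :=
    Pool.Agent.R337.polyData_of_translates D.polys hD.poly_dim h3 Γ (polysU B₁ B₂ D) hQ
  have hfront : ∀ P ∈ polysU B₁ B₂ D, ∀ x ∈ closure P, x ∉ P →
      (∃ z : Fin 3 → ℤ, x = Pool.Agent.R337.toR z) ∨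
      ∃ a b : Fin 3 → ℝ, a ≠ b ∧ x ∈ openSegment ℝ a b ∧ a ∈ closure P ∧ b ∈ closure P ∧
        ∃ P' ∈ polysU B₁ B₂ D, a ∈ closure P' ∧ b ∈ closure P' ∧ ∃ c ∈ P, ∃ c' ∈ P',
          ∃ s t u r : ℝ, 0 < s ∧ 0 < t ∧ 0 ≤ r ∧
            s • c + t • c' = (s + t + r - u) • a + u • b := by
    intro P hP x hx hxP
    rcases h25.boundary P hP x hx hxP with ⟨n, m, v, _, hv⟩ | ⟨ab, hab, hxab, habP, P', hP', _,
      habP', hw⟩
    · left
      exact ⟨_, hv.trans (act_toReal _ _)⟩
    · right
      obtain ⟨ha, hb⟩ := hcl habP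
      obtain ⟨ha', hb'⟩ := hcl habP'
      obtain ⟨φ, hφ⟩ := hdata P hP
      obtain ⟨φ', hφ'⟩ := hdata P' hP'
      refine ⟨ab.1, ab.2, ?_, hxab, ha, hb, P', hP', ha', hb',
        wellPlaced_relation hφ hφ' ha hb ha' hb' hw⟩
      obtain ⟨n, m, f, hf, rfl⟩ := hab
      intro heq
      have h2 := act_injective _ heq
      apply hD.edge_ne f hf
      funext i
      have := congrFun h2 i
      simpa [toReal] using this
  have hsign : ∀ S ∈ D.polys, ∃ σ : Fin 3 → ℝ, ∀ v ∈ S, ∀ j,
      0 < e.coord j (Pool.Agent.R337.toR v) * σ j := fun S hS =>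
    Pool.Agent.R337.sign_vertex (A := A) hirr e α he Γ hone hΓ D.polys hD.poly_dim h3
      (polysU B₁ B₂ D) hQ hfront hS
  obtain ⟨hom⟩ := h1
  -- all eigencoordinates are nonzero on closed polygons of `U`
  have hcontc : ∀ i, Continuous (e.coord i) := fun i =>
    (e.coord i).continuous_of_finiteDimensional
  have hhull : ∀ S ∈ D.polys, ∀ x ∈ convexHull ℝ (toReal '' (S : Set (Fin 3 → ℤ))), ∀ j,
      e.coord j x ≠ 0 := by
    intro S hS x hx j
    obtain ⟨σ, hσ⟩ := hsign S hS
    have hconv : Convex ℝ {x | 0 < e.coord j x * σ j} := by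
      intro y hy z hz a b ha hb hab
      have hy' : 0 < e.coord j y * σ j := hy
      have hz' : 0 < e.coord j z * σ j := hz
      show 0 < e.coord j (a • y + b • z) * σ j
      rw [map_add, map_smul, map_smul, smul_eq_mul, smul_eq_mul]
      rcases ha.lt_or_eq with ha' | ha'
      · have h4 : 0 < a * (e.coord j y * σ j) := mul_pos ha' hy'
        have h5 : 0 ≤ b * (e.coord j z * σ j) := mul_nonneg hb hz'.le
        nlinarith
      · have hb1 : b = 1 := by linarith
        rw [← ha', hb1]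
        simpa using hz'
    have h2 : 0 < e.coord j x * σ j := convexHull_min (by
      rintro _ ⟨v, hv, rfl⟩
      exact hσ v hv j) hconv hx
    intro h0
    rw [h0, zero_mul] at h2
    exact lt_irrefl _ h2
  have hclU : ∀ P ∈ polysU B₁ B₂ D, ∀ x ∈ closure P, ∀ j, e.coord j x ≠ 0 := by
    rintro P ⟨n, m, S, hS, rfl⟩ x hx j
    set g : GL (Fin 3) ℤ := B₁ ^ n * B₂ ^ m with hg
    obtain ⟨μ, hμ, _, hμe⟩ := hΓ g ⟨n, m, rfl⟩
    have hcompact : IsCompact (act (g : Matrix (Fin 3) (Fin 3) ℤ) ''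
        convexHull ℝ (toReal '' (S : Set (Fin 3 → ℤ)))) := by
      apply IsCompact.image
      · exact (S.finite_toSet.image toReal).isCompact_convexHull ℝ
      · have : Continuous (Matrix.toLin' (Pool.Agent.R337.matR
            (g : Matrix (Fin 3) (Fin 3) ℤ))) := LinearMap.continuous_of_finiteDimensional _
        exact this
    have hx2 : x ∈ act (g : Matrix (Fin 3) (Fin 3) ℤ) ''
        convexHull ℝ (toReal '' (S : Set (Fin 3 → ℤ))) :=
      closure_minimal (image_mono intrinsicInterior_subset) hcompact.isClosed hx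
    obtain ⟨y, hy, rfl⟩ := hx2
    have h4 : e.coord j (act (g : Matrix (Fin 3) (Fin 3) ℤ) y) = μ j * e.coord j y :=
      Pool.Agent.R337.coord_diag e μ hμe y j
    rw [h4]
    exact mul_ne_zero (hμ j).ne' (hhull S hS y hy j)
  -- the closure of `D`
  set K : Set (Fin 3 → ℝ) := (⋃ S ∈ D.polys, convexHull ℝ (toReal '' (S : Set (Fin 3 → ℤ)))) ∪
    (⋃ f ∈ D.edges, segment ℝ (toReal f.1) (toReal f.2)) ∪
    (⋃ v ∈ D.verts.filter (fun v => v ≠ 0), {toReal v}) with hK
  have hKcl : IsClosed K := by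
    refine IsClosed.union (IsClosed.union ?_ ?_) ?_
    · exact D.polys.finite_toSet.isClosed_biUnion fun S _ =>
        (S.finite_toSet.image toReal).isClosed_convexHull (𝕜 := ℝ)
    · exact D.edges.finite_toSet.isClosed_biUnion fun f _ => by
        rw [← closure_openSegment]; exact isClosed_closure
    · exact (Finset.finite_toSet _).isClosed_biUnion fun v _ => isClosed_singleton
  have hKne : ∀ x ∈ K, ∀ j, e.coord j x ≠ 0 := by
    rintro x ((hx | hx) | hx) j
    · simp only [mem_iUnion] at hx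
      obtain ⟨S, hS, hx⟩ := hx
      exact hhull S hS x hx j
    · simp only [mem_iUnion] at hx
      obtain ⟨f, hf, hx⟩ := hx
      obtain ⟨P, hP, hfP⟩ := h25.edge f hf
      apply hclU P hP x ?_ j
      have h2 : segment ℝ (toReal f.1) (toReal f.2) ⊆ closure P := by
        rw [← closure_openSegment]
        exact closure_minimal hfP isClosed_closure
      exact h2 hx
    · simp only [mem_iUnion, Finset.mem_filter, mem_singleton_iff] at hx
      obtain ⟨v, ⟨_, hv0⟩, rfl⟩ := hx
      exact Pool.Agent.R337.coord_ne_zero (A := A) hirr e α he hv0 j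
  have hcar : D.carrier ⊆ {0} ∪ K := by
    rintro x ⟨c, hc, hxc⟩
    rcases hc with (⟨v, hv, rfl⟩ | ⟨f, hf, rfl⟩) | ⟨S, hS, rfl⟩
    · have hxv : x = toReal v := hxc
      by_cases hv0 : v = 0
      · left
        rw [hxv, hv0]
        funext i
        simp [toReal]
      · right; right
        simp only [mem_iUnion, Finset.mem_filter, mem_singleton_iff]
        exact ⟨v, ⟨hv, hv0⟩, hxv⟩
    · right; left; right
      simp only [mem_iUnion]
      exact ⟨f, hf, openSegment_subset_segment ℝ _ _ hxc⟩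
    · right; left; left
      simp only [mem_iUnion]
      exact ⟨S, hS, intrinsicInterior_subset hxc⟩
  have hclD : closure D.carrier ⊆ {0} ∪ K :=
    closure_minimal hcar (isClosed_singleton.union hKcl)
  -- connectedness
  have hpre : IsPreconnected (closure D.carrier) := by
    have hball : IsPreconnected (Metric.closedBall (0 : EuclideanSpace ℝ (Fin 2)) 1) :=
      (convex_closedBall _ _).isPreconnected
    have : PreconnectedSpace (Metric.closedBall (0 : EuclideanSpace ℝ (Fin 2)) 1) :=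
      isPreconnected_iff_preconnectedSpace.mp hball
    have h2 : PreconnectedSpace (closure D.carrier) :=
      hom.symm.surjective.denseRange.preconnectedSpace hom.symm.continuous
    exact isPreconnected_iff_preconnectedSpace.mpr h2
  have h0not : (0 : Fin 3 → ℝ) ∉ K := by
    intro h
    exact hKne 0 h 0 (map_zero _)
  have hclK : closure D.carrier ⊆ K := by
    by_cases h0 : (0 : Fin 3 → ℝ) ∈ closure D.carrier
    · exfalso
      -- then the closure is a single point
      have hsingle : closure D.carrier ⊆ {0} := by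
        by_contra hns
        obtain ⟨y, hy, hy0⟩ := Set.not_subset.mp hns
        have hyK : y ∈ K := by
          rcases hclD hy with h | h
          · exact absurd h hy0
          · exact h
        obtain ⟨z, _, hz0, hzK⟩ := isPreconnected_closed_iff.mp hpre {0} K isClosed_singleton
          hKcl hclD ⟨0, h0, rfl⟩ ⟨y, hy, hyK⟩
        rw [mem_singleton_iff] at hz0
        exact h0not (hz0 ▸ hzK)
      have hsub : Subsingleton (closure D.carrier) := by
        constructor
        rintro ⟨x, hx⟩ ⟨y, hy⟩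
        apply Subtype.ext
        show x = y
        rw [mem_singleton_iff.mp (hsingle hx), mem_singleton_iff.mp (hsingle hy)]
      have hsub2 : Subsingleton (Metric.closedBall (0 : EuclideanSpace ℝ (Fin 2)) 1) :=
        hom.symm.injective.subsingleton
      have hm0 : (0 : EuclideanSpace ℝ (Fin 2)) ∈ Metric.closedBall 0 1 := by simp
      have hm1 : (EuclideanSpace.single 0 1 : EuclideanSpace ℝ (Fin 2)) ∈
          Metric.closedBall 0 1 := by simp
      have heq := hsub2.elim ⟨_, hm0⟩ ⟨_, hm1⟩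
      have h5 : (0 : EuclideanSpace ℝ (Fin 2)) = EuclideanSpace.single 0 1 :=
        congrArg Subtype.val heq
      have h6 := congrArg (fun z : EuclideanSpace ℝ (Fin 2) => z 0) h5
      simp at h6
    · intro x hx
      rcases hclD hx with h | h
      · exact absurd (mem_singleton_iff.mp h ▸ hx) h0
      · exact h
  -- constant signs
  have hsgn : ∀ j, ∃ σ : ℝ, (σ = 1 ∨ σ = -1) ∧ ∀ x ∈ closure D.carrier, 0 < σ * e.coord j x := by
    intro j
    have hu : IsOpen {x | 0 < e.coord j x} := isOpen_lt continuous_const (hcontc j)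
    have hv : IsOpen {x | e.coord j x < 0} := isOpen_lt (hcontc j) continuous_const
    have hdisj : Disjoint {x | 0 < e.coord j x} {x | e.coord j x < 0} := by
      rw [Set.disjoint_left]
      intro x h2 h4
      have h2' : 0 < e.coord j x := h2
      have h4' : e.coord j x < 0 := h4
      linarith
    have hcov : closure D.carrier ⊆ {x | 0 < e.coord j x} ∪ {x | e.coord j x < 0} := by
      intro x hx
      rcases lt_or_gt_of_ne (hKne x (hclK hx) j) with h | h
      · right; exact h
      · left; exact h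
    rcases hpre.subset_or_subset hu hv hdisj hcov with h | h
    · exact ⟨1, Or.inl rfl, fun x hx => by rw [one_mul]; exact h hx⟩
    · refine ⟨-1, Or.inr rfl, fun x hx => ?_⟩
      have h2 : e.coord j x < 0 := h hx
      linarith
  choose σ hσ1 hσ using hsgn
  have hσunit : ∀ j, IsUnit (σ j) := by
    intro j
    rcases hσ1 j with h | h <;> rw [h]
    · exact isUnit_one
    · exact isUnit_one.neg
  set e' : Basis (Fin 3) ℝ (Fin 3 → ℝ) := e.isUnitSMul hσunit with he'
  have he'j : ∀ j, e' j = σ j • e j := fun j => by rw [he', Basis.isUnitSMul_apply]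
  have hrepr : ∀ x j, e'.repr x j = σ j * e.coord j x := by
    intro x j
    have h2 : e'.coord j = (σ j) • e.coord j := by
      apply e'.ext
      intro i
      rw [he'j i, LinearMap.smul_apply, map_smul, map_smul]
      have h4 : e'.coord j (e i) = (σ i)⁻¹ * (if i = j then 1 else 0) := by
        have h5 : e i = (σ i)⁻¹ • e' i := by
          rw [he'j, smul_smul, inv_mul_cancel₀ (hσunit i).ne_zero, one_smul]
        rw [h5, map_smul, smul_eq_mul]
        congr 1
        by_cases hij : i = j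
        · subst hij; simp
        · simp [Finsupp.single_eq_of_ne (Ne.symm hij), hij]
      rw [h4]
      by_cases hij : i = j
      · subst hij
        rcases hσ1 i with h6 | h6 <;> rw [h6] <;> simp
      · simp [Finsupp.single_eq_of_ne (Ne.symm hij), hij]
    have h4 : e'.repr x j = e'.coord j x := rfl
    rw [h4, h2, LinearMap.smul_apply, smul_eq_mul]
  refine ⟨{x | ∀ j, 0 < e'.repr x j}, ⟨e', ?_, rfl⟩, ?_, ?_, ?_⟩
  · intro j
    refine ⟨α j, ?_⟩
    have h2 := he j
    rw [he'j]
    show (Pool.Agent.R337.matR A).mulVec (σ j • e j) = α j • σ j • e j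
    rw [Matrix.mulVec_smul, h2, smul_comm]
  all_goals
    have hmemC : ∀ x ∈ closure D.carrier, x ∈ {x | ∀ j, 0 < e'.repr x j} := by
      intro x hx j
      rw [hrepr]
      exact hσ j x hx
  · intro v hv
    apply hmemC
    apply subset_closure
    exact ⟨_, Or.inl (Or.inl ⟨v, hv, rfl⟩), rfl⟩
  · intro f hf
    have h2 : segment ℝ (toReal f.1) (toReal f.2) ⊆ closure D.carrier := by
      rw [← closure_openSegment]
      apply closure_mono
      intro x hx
      exact ⟨_, Or.inl (Or.inr ⟨f, hf, rfl⟩), hx⟩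
    exact ⟨hmemC _ (h2 (left_mem_segment ℝ _ _)), hmemC _ (h2 (right_mem_segment ℝ _ _))⟩
  · intro S hS v hv
    apply hmemC
    obtain ⟨hne, φ, hφ, hspan⟩ := Pool.Agent.R337.exists_form S (hD.poly_dim S hS) (h3 S hS)
    have hint := Pool.Agent.R337.intrinsicInterior_hull S hne Pool.Agent.R337.toR φ hφ hspan
    have h2 : toReal v ∈ closure (Pool.Agent.R337.oHull S Pool.Agent.R337.toR) :=
      Pool.Agent.R337.hull_subset_closure S hne _ (subset_convexHull ℝ _ ⟨v, hv, rfl⟩)
    refine closure_mono ?_ h2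
    rw [← hint]
    intro x hx
    exact ⟨_, Or.inr ⟨S, hS, rfl⟩, hx⟩

end Pool.Agent.Results.MP_7af359_nt.ConeConditionRedundant
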